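import Pool.Agent.MVD.Stmts

set_option autoImplicit false

namespace Pool.Agent.MVD.H16

open Pool.Agent.Helper14_MV Pool.Agent.Helper2_MV Pool.Agent.MVD

/-- the substitution -/
def gg (x y : ℕ) (m : List ℕ) (i : ℕ) : List ℕ :=
  if i = 0 then [x] else if i = 3 then [y] else if i = 2 then m else []

theorem ctx {β : FIC} {l l' : List ℕ} (h : RR β l l') (g : ℕ → List ℕ) (p r : List ℕ) :
    RR β (p ++ (l.flatMap g ++ r)) (p ++ (l'.flatMap g ++ r)) :=
  (RR.refl p).append ((h.sub g).append (RR.refl r))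

/-- **Row CTY**. -/
theorem cty : CtyStmt := by
  intro β
  refine ⟨?_, ?_, ?_, ?_, ?_⟩
  · intro h p q x y hx
    obtain ⟨q1, q2, rfl⟩ := List.append_of_mem hx
    have h1 := ctx h (gg x y q1) p q2
    simpa [gg] using h1
  · intro h p q x y hx
    obtain ⟨q1, q2, rfl⟩ := List.append_of_mem hx
    have h1 := ctx h (gg x y q1) p q2
    simpa [gg] using h1
  · intro h p q x y hx
    obtain ⟨p1, p2, rfl⟩ := List.append_of_mem hx
    have h1 := ctx h (gg x y p2) p1 q
    simpa [gg] using h1
  · intro h p q x y hx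
    obtain ⟨p1, p2, rfl⟩ := List.append_of_mem hx
    have h1 := ctx h (gg x y p2) p1 q
    simpa [gg] using h1
  · intro h p u q y
    have h1 := ctx h (gg y y u) p q
    simpa [gg] using h1

end Pool.Agent.MVD.H16
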